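import Mathlib

set_option autoImplicit false

/-! Project KH (helper714), job SUMC: summation over the cells. -/

namespace Pool.Agent.Y492.KH

open Finset

section

variable {s : Type} [Fintype s] [DecidableEq s]

/-- the linear forms are bounded below on the cone -/
theorem lowG {n : s → ℕ} {x : s → ℝ} {y : s → ℤ} {a δ : ℝ} (hn : ∀ i, 0 < n i) (ha : 0 ≤ a)
    (hδ : 0 ≤ δ) (hx : ∀ i, 0 ≤ x i) (hX : ∀ i, 2 * x i + δ ≤ ∑ j, (n j : ℝ) * x j)
    (h1 : ∀ i, 2 ≤ n i → -a ≤ y i) (h2 : ∀ i j, i ≠ j → -a ≤ (y i : ℝ) + y j) (k : s) :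
    δ * (-(y k : ℝ) - a) - a * ∑ j, (n j : ℝ) * x j ≤ ∑ i, (n i : ℝ) * x i * y i := by
  have : Nonempty s := ⟨k⟩
  obtain ⟨j, hj⟩ := Finite.exists_min y
  set X := ∑ j, (n j : ℝ) * x j with hXdef
  have hjk : (y j : ℝ) ≤ y k := by exact_mod_cast hj k
  by_cases hja : -a ≤ (y j : ℝ)
  · have e1 : -(a * X) ≤ ∑ i, (n i : ℝ) * x i * y i := by
      rw [hXdef, mul_sum, ← sum_neg_distrib]
      refine sum_le_sum fun i _ => ?_
      have e2 : -a ≤ (y i : ℝ) := hja.trans (by exact_mod_cast hj i)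
      have e3 : 0 ≤ (n i : ℝ) * x i := mul_nonneg (Nat.cast_nonneg _) (hx i)
      nlinarith
    have e4 : δ * (-(y k : ℝ) - a) ≤ 0 := mul_nonpos_of_nonneg_of_nonpos hδ (by linarith)
    linarith
  · have hn1 : n j = 1 := by
      by_contra h
      have := hn j
      exact hja (h1 j (by omega))
    have e1 : ∀ i ∈ (univ : Finset s), (n i : ℝ) * x i * (-a - y j) +
        (if i = j then x j * (2 * y j + a) else 0) ≤ (n i : ℝ) * x i * y i := by
      intro i _
      split_ifs with h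
      · subst h
        rw [hn1]
        push_cast
        linarith
      · have e2 := h2 i j h
        have e3 : 0 ≤ (n i : ℝ) * x i := mul_nonneg (Nat.cast_nonneg _) (hx i)
        nlinarith
    have e4 := sum_le_sum e1
    rw [sum_add_distrib, ← sum_mul, sum_ite_eq' univ j, if_pos (mem_univ j), ← hXdef] at e4
    have e5 := hX j
    have e6 := hx j
    have e7 : 0 ≤ -(y j : ℝ) := by linarith
    have e8 : δ * (-(y k : ℝ) - a) ≤ δ * (-(y j : ℝ)) := mul_le_mul_of_nonneg_left (by linarith) hδ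
    have e9 : δ * (-(y j : ℝ)) ≤ (X - 2 * x j) * (-(y j : ℝ)) :=
      mul_le_mul_of_nonneg_right (by linarith) e7
    nlinarith [mul_nonneg ha e6]

/-- the integer value of the height -/
def hZ (n e : s → ℕ) (d : ℕ) (y : s → ℤ) : ℤ := ∑ i, (d : ℤ) * n i * e i * y i

theorem hZ_cast (n e : s → ℕ) (d : ℕ) (y : s → ℤ) :
    ((hZ n e d y : ℤ) : ℝ) = ∑ i, (d : ℝ) * n i * e i * y i := by
  unfold hZ
  push_cast
  rfl

theorem hZ_inj {n e : s → ℕ} {d : ℕ} (hd : 0 < d) (hn : ∀ i, 0 < n i) (he : ∀ i, 0 < e i) (i₀ : s)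
    {y y' : s → ℤ} (h1 : Function.update y i₀ 0 = Function.update y' i₀ 0)
    (h2 : hZ n e d y = hZ n e d y') : y = y' := by
  have h3 : ∀ i, i ≠ i₀ → y i = y' i := by
    intro i hi
    have := congrFun h1 i
    rwa [Function.update_of_ne hi, Function.update_of_ne hi] at this
  have h4 : ∑ i ∈ univ.erase i₀, (d : ℤ) * n i * e i * y i =
      ∑ i ∈ univ.erase i₀, (d : ℤ) * n i * e i * y' i :=
    sum_congr rfl fun i hi => by rw [h3 i (ne_of_mem_erase hi)]
  unfold hZ at h2
  rw [← add_sum_erase univ _ (mem_univ i₀), ← add_sum_erase univ _ (mem_univ i₀), h4] at h2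
  have h5 := add_right_cancel h2
  have h6 : (d : ℤ) * n i₀ * e i₀ ≠ 0 := by
    have := hn i₀
    have := he i₀
    positivity
  have h7 := mul_left_cancel₀ h6 h5
  funext i
  by_cases hi : i = i₀
  · rw [hi]; exact h7
  · exact h3 i hi

/-- the sum of the exponentials of the height -/
theorem sum_le {n e : s → ℕ} {d : ℕ} (hd : 0 < d) (hn : ∀ i, 0 < n i) (he : ∀ i, 0 < e i) (i₀ : s)
    {t L : ℝ} (ht : 0 < t) (N : ℕ) (Z : Finset (s → ℤ))
    (hZ1 : ∀ y ∈ Z, (hZ n e d y : ℝ) ≤ L) (hZ2 : ∀ y ∈ Z, ∀ i, -(N : ℤ) ≤ y i ∧ y i ≤ N) :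
    ∑ y ∈ Z, Real.exp (t * (hZ n e d y : ℝ)) ≤
      (2 * (N : ℝ) + 1) ^ (Fintype.card s - 1) * (Real.exp (t * L) * (1 - Real.exp (-t))⁻¹) := by
  set b : ℤ := ⌊L⌋ with hb
  set q : ℝ := Real.exp (-t) with hq
  have hq0 : 0 < q := Real.exp_pos _
  have hq1 : q < 1 := (by rw [← Real.exp_zero]; exact Real.exp_lt_exp.2 (by linarith))
  have hyb : ∀ y ∈ Z, hZ n e d y ≤ b := fun y hy => Int.le_floor.2 (hZ1 y hy)
  set Φ : (s → ℤ) → (s → ℤ) × ℕ := fun y => (Function.update y i₀ 0, (b - hZ n e d y).toNat)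
    with hΦ
  have hinj : Set.InjOn Φ (Z : Set (s → ℤ)) := by
    intro y hy y' hy' h
    simp only [hΦ, Prod.mk.injEq] at h
    refine hZ_inj hd hn he i₀ h.1 ?_
    have a1 := hyb y hy
    have a2 := hyb y' hy'
    have a3 := h.2
    omega
  set U : Finset (s → ℤ) := Fintype.piFinset fun i => if i = i₀ then {0} else Icc (-(N : ℤ)) N
    with hU
  set R : ℕ := Z.sup (fun y => (b - hZ n e d y).toNat) + 1 with hR
  have hsub : Z.image Φ ⊆ U ×ˢ range R := by
    intro p hp
    obtain ⟨y, hy, rfl⟩ := mem_image.1 hp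
    rw [mem_product]
    constructor
    · rw [hU, Fintype.mem_piFinset]
      intro i
      simp only [hΦ]
      by_cases hi : i = i₀
      · rw [if_pos hi, hi, Function.update_self, mem_singleton]
      · rw [if_neg hi, Function.update_of_ne hi, mem_Icc]
        exact hZ2 y hy i
    · rw [mem_range, hR]
      exact Nat.lt_succ_of_le (le_sup (f := fun y => (b - hZ n e d y).toNat) hy)
  have hval : ∀ y ∈ Z, Real.exp (t * (hZ n e d y : ℝ)) =
      Real.exp (t * b) * q ^ (Φ y).2 := by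
    intro y hy
    have a1 := hyb y hy
    rw [hq, ← Real.exp_nat_mul, ← Real.exp_add]
    congr 1
    simp only [hΦ]
    have a2 : (((b - hZ n e d y).toNat : ℕ) : ℝ) = (b : ℝ) - (hZ n e d y : ℝ) := by
      have a3 : (((b - hZ n e d y).toNat : ℕ) : ℤ) = b - hZ n e d y :=
        Int.toNat_of_nonneg (by omega)
      have a4 := congrArg (fun z : ℤ => (z : ℝ)) a3
      push_cast at a4
      exact_mod_cast a4
    rw [a2]
    ring
  have hcard : (U.card : ℝ) = (2 * (N : ℝ) + 1) ^ (Fintype.card s - 1) := by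
    have c1 : U.card = (2 * N + 1) ^ (Fintype.card s - 1) := by
      rw [hU, Fintype.card_piFinset]
      have c2 : ∀ i : s, (if i = i₀ then ({0} : Finset ℤ) else Icc (-(N : ℤ)) N).card =
          if i = i₀ then 1 else 2 * N + 1 := by
        intro i
        split_ifs
        · rfl
        · rw [Int.card_Icc]
          omega
      rw [prod_congr rfl fun i _ => c2 i, prod_ite, prod_const_one, one_mul, prod_const]
      congr 1
      rw [filter_not, card_sdiff_of_subset (filter_subset _ _), card_univ]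
      congr 1
      rw [filter_eq', if_pos (mem_univ _), card_singleton]
    rw [c1]
    push_cast
    rfl
  have hgeo : ∑ l ∈ range R, q ^ l ≤ (1 - q)⁻¹ := by
    rw [← tsum_geometric_of_lt_one hq0.le hq1]
    exact (summable_geometric_of_lt_one hq0.le hq1).sum_le_tsum _ (fun _ _ => by positivity)
  have hbL : Real.exp (t * b) ≤ Real.exp (t * L) :=
    Real.exp_le_exp.2 (mul_le_mul_of_nonneg_left (Int.floor_le L) ht.le)
  calc ∑ y ∈ Z, Real.exp (t * (hZ n e d y : ℝ)) = ∑ y ∈ Z, Real.exp (t * b) * q ^ (Φ y).2 :=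
        sum_congr rfl hval
    _ = ∑ p ∈ Z.image Φ, Real.exp (t * b) * q ^ p.2 :=
        (sum_image (f := fun p : (s → ℤ) × ℕ => Real.exp (t * b) * q ^ p.2) hinj).symm
    _ ≤ ∑ p ∈ U ×ˢ range R, Real.exp (t * b) * q ^ p.2 :=
        sum_le_sum_of_subset_of_nonneg hsub fun _ _ _ => by positivity
    _ = U.card * (Real.exp (t * b) * ∑ l ∈ range R, q ^ l) := by
        rw [sum_product, sum_congr rfl fun u _ => (mul_sum (range R) (fun l => q ^ l)
          (Real.exp (t * b))).symm, sum_const, nsmul_eq_mul]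
    _ ≤ (2 * (N : ℝ) + 1) ^ (Fintype.card s - 1) * (Real.exp (t * L) * (1 - q)⁻¹) := by
        rw [hcard]
        have : 0 < 1 - q := by linarith
        gcongr

end

theorem sumc : ∀ (s : Type) [Fintype s] [DecidableEq s] (n e : s → ℕ) (d : ℕ) (t A : ℝ),
    0 < d → (∀ i, 0 < n i) → (∀ i, 0 < e i) → (∀ i, 2 * e i < ∑ j, n j * e j) → 0 < t →
    (∀ i, 0 ≤ t * e i - 2 ∧ 2 * (t * e i - 2) ≤ ∑ j, (n j : ℝ) * (t * e j - 2)) →
    ∃ C : ℝ, 0 < C ∧ ∀ L : ℝ, 0 ≤ L → ∃ Z : Finset (s → ℤ),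
      (∀ y : s → ℤ, (∀ i, 2 ≤ n i → -A ≤ y i) → (∀ i j, i ≠ j → -A ≤ (y i : ℝ) + y j) →
        ∑ i, (d : ℝ) * n i * e i * y i ≤ L → y ∈ Z) ∧
      ∑ y ∈ Z, Real.exp (2 * ∑ i, (d : ℝ) * n i * y i) ≤
        C * Real.exp (t * L) * (1 + L) ^ (Fintype.card s - 1) := by
  intro s _ _ n e d t A hd hn he h2e ht hx
  classical
  rcases isEmpty_or_nonempty s with hs | hs
  · refine ⟨1, one_pos, fun L hL => ⟨{fun _ => 0}, fun y _ _ _ => ?_, ?_⟩⟩
    · rw [mem_singleton]
      funext i
      exact (hs.false i).elim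
    · rw [sum_singleton]
      simp only [univ_eq_empty, sum_empty, mul_zero, Real.exp_zero, one_mul, Fintype.card_eq_zero]
      have : (1 : ℝ) ≤ Real.exp (t * L) := Real.one_le_exp (by positivity)
      simpa using this
  · obtain ⟨i₀⟩ := hs
    set a : ℝ := max A 0 with ha
    have ha0 : 0 ≤ a := le_max_right _ _
    have haA : A ≤ a := le_max_left _ _
    set E : ℝ := ∑ j, (n j : ℝ) * e j with hE
    have hE0 : 0 ≤ E := sum_nonneg fun _ _ => by positivity
    set X : ℝ := ∑ j, (n j : ℝ) * (t * e j - 2) with hX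
    set B0 : ℝ := a + a * E with hB0
    have hB00 : 0 ≤ B0 := by positivity
    set C1 : ℝ := (1 + B0) * (1 + E) with hC1
    have hC10 : 0 ≤ C1 := by positivity
    have hd1 : (1 : ℝ) ≤ d := by exact_mod_cast hd
    have hq1 : Real.exp (-t) < 1 := (by rw [← Real.exp_zero]; exact Real.exp_lt_exp.2 (by linarith))
    have hq2 : 0 < 1 - Real.exp (-t) := by linarith
    refine ⟨Real.exp (d * (a * X)) * (2 * C1 + 1) ^ (Fintype.card s - 1) *
      (1 - Real.exp (-t))⁻¹, by positivity, fun L hL => ?_⟩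
    -- the conditions
    set P : (s → ℤ) → Prop := fun y => (∀ i, 2 ≤ n i → -A ≤ y i) ∧
      (∀ i j, i ≠ j → -A ≤ (y i : ℝ) + y j) ∧ ∑ i, (d : ℝ) * n i * e i * y i ≤ L with hP
    have hP1 : ∀ y, P y → ∀ k, |(y k : ℝ)| ≤ C1 * (1 + L) := by
      intro y hy k
      obtain ⟨p1, p2, p3⟩ := hy
      have p1' : ∀ i, 2 ≤ n i → -a ≤ (y i : ℝ) := fun i hi => by linarith [p1 i hi]
      have p2' : ∀ i j, i ≠ j → -a ≤ (y i : ℝ) + y j := fun i j hij => by linarith [p2 i j hij]
      set Hy : ℝ := ∑ i, (n i : ℝ) * e i * y i with hHy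
      have f1 : ∀ k, 1 * (-(y k : ℝ) - a) - a * E ≤ Hy := fun k =>
        lowG (x := fun i => (e i : ℝ)) hn ha0 zero_le_one (fun i => Nat.cast_nonneg _)
          (fun i => by
            have := h2e i
            have h3 : 2 * e i + 1 ≤ ∑ j, n j * e j := this
            have h4 : ((2 * e i + 1 : ℕ) : ℝ) ≤ ((∑ j, n j * e j : ℕ) : ℝ) := by
              exact_mod_cast h3
            push_cast at h4
            exact h4) p1' p2' k
      have f2 : (d : ℝ) * Hy ≤ L := by
        rw [hHy, mul_sum]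
        refine le_trans (le_of_eq (sum_congr rfl fun i _ => ?_)) p3
        ring
      have f3 : Hy ≤ L := by
        rcases le_total Hy 0 with h | h
        · linarith
        · nlinarith
      have f4 : ∀ k, -(L + B0) ≤ (y k : ℝ) := fun k => by
        have := f1 k
        rw [hB0]
        linarith
      have f5 : (y k : ℝ) + (L + B0) ≤ L + (L + B0) * E := by
        have g1 : (n k : ℝ) * e k * (y k + (L + B0)) ≤
            ∑ i, (n i : ℝ) * e i * (y i + (L + B0)) :=
          single_le_sum (f := fun i => (n i : ℝ) * e i * (y i + (L + B0)))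
            (fun i _ => mul_nonneg (by positivity) (by linarith [f4 i])) (mem_univ k)
        have g2 : ∑ i, (n i : ℝ) * e i * (y i + (L + B0)) = Hy + (L + B0) * E := by
          rw [hHy, hE, mul_sum, ← sum_add_distrib]
          refine sum_congr rfl fun i _ => ?_
          ring
        have g3 : (1 : ℝ) ≤ (n k : ℝ) * e k := by
          have : 1 ≤ n k * e k := Nat.mul_pos (hn k) (he k)
          exact_mod_cast this
        have g4 : 1 * ((y k : ℝ) + (L + B0)) ≤ (n k : ℝ) * e k * (y k + (L + B0)) :=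
          mul_le_mul_of_nonneg_right g3 (by linarith [f4 k])
        linarith
      have f6 : L + B0 ≤ (1 + B0) * (1 + L) := by nlinarith
      have f7 : (L + B0) * (1 + E) ≤ C1 * (1 + L) := by
        rw [hC1]
        have := mul_le_mul_of_nonneg_right f6 (by linarith : 0 ≤ 1 + E)
        linarith
      have f8 : 0 ≤ (L + B0) * E := by positivity
      rw [abs_le]
      constructor
      · have := f4 k
        nlinarith
      · nlinarith
    have hP2 : ∀ y, P y → 2 * ∑ i, (d : ℝ) * n i * y i ≤ d * (a * X) + t * (hZ n e d y : ℝ) := by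
      intro y hy
      obtain ⟨p1, p2, p3⟩ := hy
      have g1 := lowG (x := fun i => t * e i - 2) (δ := 0) hn ha0 le_rfl (fun i => (hx i).1)
        (fun i => by rw [add_zero]; exact (hx i).2)
        (fun i hi => by linarith [p1 i hi]) (fun i j hij => by linarith [p2 i j hij]) i₀ (y := y)
      rw [zero_mul, zero_sub] at g1
      have g2 : 2 * ∑ i, (d : ℝ) * n i * y i = t * (hZ n e d y : ℝ) -
          d * ∑ i, (n i : ℝ) * (t * e i - 2) * y i := by
        rw [hZ_cast, mul_sum, mul_sum, mul_sum, ← sum_sub_distrib]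
        refine sum_congr rfl fun i _ => ?_
        ring
      rw [g2]
      have g3 : (d : ℝ) * (-(a * X)) ≤ d * ∑ i, (n i : ℝ) * (t * e i - 2) * y i :=
        mul_le_mul_of_nonneg_left g1 (by linarith)
      linarith
    set N : ℕ := ⌊C1 * (1 + L)⌋₊ with hN
    have hN1 : (N : ℝ) ≤ C1 * (1 + L) := Nat.floor_le (by positivity)
    have hbox : ∀ y, P y → ∀ i, -(N : ℤ) ≤ y i ∧ y i ≤ N := by
      intro y hy i
      have g1 := hP1 y hy i
      have g2 : |y i| ≤ (N : ℤ) := by
        have g3 : ((y i).natAbs : ℝ) ≤ C1 * (1 + L) := by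
          rw [Nat.cast_natAbs]
          push_cast
          exact g1
        have g4 : (y i).natAbs ≤ N := Nat.le_floor g3
        rw [Int.abs_eq_natAbs]
        exact_mod_cast g4
      exact abs_le.1 g2
    set Z : Finset (s → ℤ) := (Fintype.piFinset fun _ => Icc (-(N : ℤ)) N).filter P with hZdef
    have hZP : ∀ y ∈ Z, P y := fun y hy => (mem_filter.1 hy).2
    refine ⟨Z, fun y p1 p2 p3 => ?_, ?_⟩
    · rw [hZdef, mem_filter, Fintype.mem_piFinset]
      exact ⟨fun i => mem_Icc.2 (hbox y ⟨p1, p2, p3⟩ i), p1, p2, p3⟩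
    · have s1 : ∑ y ∈ Z, Real.exp (2 * ∑ i, (d : ℝ) * n i * y i) ≤
          Real.exp (d * (a * X)) * ∑ y ∈ Z, Real.exp (t * (hZ n e d y : ℝ)) := by
        rw [mul_sum]
        refine sum_le_sum fun y hy => ?_
        rw [← Real.exp_add]
        exact Real.exp_le_exp.2 (hP2 y (hZP y hy))
      have s2 := sum_le hd hn he i₀ ht N Z (fun y hy => by
        rw [hZ_cast]
        exact (hZP y hy).2.2) (fun y hy => hbox y (hZP y hy)) (L := L)
      have s3 : (2 * (N : ℝ) + 1) ^ (Fintype.card s - 1) ≤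
          ((2 * C1 + 1) * (1 + L)) ^ (Fintype.card s - 1) := by
        refine pow_le_pow_left₀ (by positivity) ?_ _
        nlinarith
      rw [mul_pow] at s3
      calc _ ≤ Real.exp (d * (a * X)) * ∑ y ∈ Z, Real.exp (t * (hZ n e d y : ℝ)) := s1
        _ ≤ Real.exp (d * (a * X)) * ((2 * (N : ℝ) + 1) ^ (Fintype.card s - 1) *
            (Real.exp (t * L) * (1 - Real.exp (-t))⁻¹)) :=
            mul_le_mul_of_nonneg_left s2 (Real.exp_pos _).le
        _ ≤ Real.exp (d * (a * X)) * (((2 * C1 + 1) ^ (Fintype.card s - 1) *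
            (1 + L) ^ (Fintype.card s - 1)) * (Real.exp (t * L) * (1 - Real.exp (-t))⁻¹)) := by
            gcongr
        _ = _ := by ring

end Pool.Agent.Y492.KH
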